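import Pool.Agent.X3.IC.Frame

/-!
# Every icube in `Z^8` extends to an `8`-icube
-/

set_option autoImplicit false

namespace Pool.Agent.Results.MP_710d87_nt.IcubesExtend

/-- `v` is a `k`-icube in `Z^n` of norm `lam`: its `k` vectors are pairwise orthogonal integral
vectors, all of squared length `lam > 0`. -/
def IsIcube {n k : ℕ} (lam : ℤ) (v : Fin k → Fin n → ℤ) : Prop :=
  0 < lam ∧ ∀ i j : Fin k, ∑ l : Fin n, v i l * v j l = if i = j then lam else 0

/-- **Every icube in `Z^8` extends to an `8`-icube** (of the same norm, with the given vectors as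
its first vectors). -/
theorem result : ∀ (k : ℕ) (_ : 1 ≤ k) (hk : k ≤ 8) (lam : ℤ) (v : Fin k → Fin 8 → ℤ),
    IsIcube lam v →
    ∃ w : Fin 8 → Fin 8 → ℤ, IsIcube lam w ∧ ∀ i : Fin k, w (Fin.castLE hk i) = v i := by
  intro k hk1 hk lam v hv
  exact Pool.Agent.X3.IC.extend_full (8 - k) k hk1 hk rfl lam v hv

end Pool.Agent.Results.MP_710d87_nt.IcubesExtend
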